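import Mathlib

/-!
# MP_dd6e79_al: oscillating growth of finitely presented semigroups

There are countably many growth functions of finitely presented semigroups, and every growth
function of a finitely generated semigroup is either at least exponential or subexponential.
A diagonal argument gives a subexponential function `f₂` which eventually dominates all
subexponential growth functions of finitely presented semigroups. With `f₁ n = n ^ 3` this gives
the negative answer to the question.
-/

set_option autoImplicit false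

namespace Pool.Agent.Results.MP_dd6e79_al.NoOscillation

open Filter Topology

/-- The elements of `S` which are represented by nonempty words of length at most `n` over `X`. -/
def ball {S : Type} [Semigroup S] (X : Finset S) (n : ℕ) : Set S :=
  {s | ∃ w : FreeSemigroup X, w.length ≤ n ∧ FreeSemigroup.lift (fun x : X => (x : S)) w = s}

/-- The growth function of `S` for the finite set `X`. -/
noncomputable def growth {S : Type} [Semigroup S] (X : Finset S) (n : ℕ) : ℕ := (ball X n).ncard

/-- The finite set `X` generates the semigroup `S`. -/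
def Generates {S : Type} [Semigroup S] (X : Finset S) : Prop :=
  Subsemigroup.closure (X : Set S) = ⊤

/-- The semigroup given by the generators `Fin k` and the relations `R`. -/
abbrev Presented (k : ℕ) (R : Finset (FreeSemigroup (Fin k) × FreeSemigroup (Fin k))) : Type :=
  (conGen (fun u v : FreeSemigroup (Fin k) => (u, v) ∈ R)).Quotient

/-- The semigroup `S` is finitely presented: it is given by finitely many generators and finitely
many defining relations. -/
def FinitelyPresented (S : Type) [Semigroup S] : Prop :=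
  ∃ (k : ℕ) (R : Finset (FreeSemigroup (Fin k) × FreeSemigroup (Fin k))),
    Nonempty (Presented k R ≃* S)

/-- `f ⪯ g`. -/
def Dom (f g : ℕ → ℕ) : Prop := ∃ C : ℕ, 1 ≤ C ∧ ∀ n, f n ≤ C * g (C * n)

/-- `f ∼ g`. -/
def Equivalent (f g : ℕ → ℕ) : Prop := Dom f g ∧ Dom g f

/-! ### Growth functions are submultiplicative -/

section growth

variable {S : Type} [Semigroup S] (X : Finset S)

theorem ball_zero : ball X 0 = ∅ := by
  ext s
  simp only [ball, Set.mem_ofPred_eq, Set.mem_empty_iff_false, iff_false]
  rintro ⟨w, hw, _⟩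
  simp [FreeSemigroup.length] at hw

theorem ball_mono {m n : ℕ} (h : m ≤ n) : ball X m ⊆ ball X n := by
  rintro s ⟨w, hw, rfl⟩
  exact ⟨w, hw.trans h, rfl⟩

theorem ball_add (m n : ℕ) :
    ball X (m + n) ⊆ ball X m ∪ ball X n ∪ Set.image2 (· * ·) (ball X m) (ball X n) := by
  rintro s ⟨w, hw, rfl⟩
  obtain ⟨a, l⟩ := w
  by_cases h1 : l.length + 1 ≤ m
  · exact Or.inl (Or.inl ⟨⟨a, l⟩, h1, rfl⟩)
  by_cases h2 : l.length + 1 ≤ n
  · exact Or.inl (Or.inr ⟨⟨a, l⟩, h2, rfl⟩)
  push Not at h1 h2
  have hw' : l.length + 1 ≤ m + n := hw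
  have hm : 1 ≤ m := by omega
  right
  have hd : (l.drop (m - 1)) ≠ [] := by
    intro h
    rw [List.drop_eq_nil_iff] at h
    omega
  obtain ⟨b, t, hbt⟩ := List.exists_cons_of_ne_nil hd
  have hlen : (l.drop (m - 1)).length = t.length + 1 := by rw [hbt]; simp
  rw [List.length_drop] at hlen
  have e : (⟨a, l⟩ : FreeSemigroup X) = (⟨a, l.take (m - 1)⟩ : FreeSemigroup X) * ⟨b, t⟩ := by
    apply FreeSemigroup.ext
    · rfl
    · show l = l.take (m - 1) ++ b :: t
      rw [← hbt, List.take_append_drop]
  refine ⟨_, ⟨⟨a, l.take (m - 1)⟩, ?_, rfl⟩, _, ⟨⟨b, t⟩, ?_, rfl⟩, ?_⟩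
  · show (l.take (m - 1)).length + 1 ≤ m
    rw [List.length_take]
    omega
  · show t.length + 1 ≤ n
    omega
  · show _ * _ = _
    rw [e, map_mul]

theorem ball_finite (n : ℕ) : (ball X n).Finite := by
  induction n with
  | zero => rw [ball_zero]; exact Set.finite_empty
  | succ n ih =>
    have h1 : (ball X 1).Finite := by
      refine X.finite_toSet.subset ?_
      rintro s ⟨⟨a, l⟩, hw, rfl⟩
      have hl : l = [] := by
        have : l.length + 1 ≤ 1 := hw
        exact List.length_eq_zero_iff.mp (by omega)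
      subst hl
      have : FreeSemigroup.lift (fun x : X => (x : S)) (FreeSemigroup.of a) = (a : S) :=
        FreeSemigroup.lift_of _ _
      change FreeSemigroup.lift (fun x : X => (x : S)) (FreeSemigroup.of a) ∈ (X : Set S)
      rw [this]
      exact a.2
    exact ((ih.union h1).union (ih.image2 _ h1)).subset (ball_add X n 1)

theorem growth_mono : Monotone (growth X) := fun _ n h =>
  Set.ncard_le_ncard (ball_mono X h) (ball_finite X n)

theorem growth_add (m n : ℕ) :
    growth X (m + n) + 1 ≤ (growth X m + 1) * (growth X n + 1) := by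
  have hm := ball_finite X m
  have hn := ball_finite X n
  have h1 : growth X (m + n) ≤
      (ball X m ∪ ball X n ∪ Set.image2 (· * ·) (ball X m) (ball X n)).ncard :=
    Set.ncard_le_ncard (ball_add X m n) ((hm.union hn).union (hm.image2 _ hn))
  have h2 := Set.ncard_union_le (ball X m ∪ ball X n)
    (Set.image2 (· * ·) (ball X m) (ball X n))
  have h3 := Set.ncard_union_le (ball X m) (ball X n)
  have h4 : (Set.image2 (· * ·) (ball X m) (ball X n)).ncard ≤ growth X m * growth X n := by
    rw [← Set.image_prod]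
    refine (Set.ncard_image_le (hm.prod hn)).trans ?_
    rw [Set.ncard_prod]
    exact le_rfl
  have h5 : growth X m = (ball X m).ncard := rfl
  have h6 : growth X n = (ball X n).ncard := rfl
  nlinarith

end growth

/-! ### Subexponential functions -/

/-- Subexponential functions. -/
def Subexp (f : ℕ → ℕ) : Prop := ∀ a : ℝ, 1 < a → ∀ᶠ n in atTop, (f n : ℝ) ≤ a ^ n

/-- A submultiplicative function is subexponential, or at least exponential. -/
theorem dichotomy (g : ℕ → ℕ) (hg : ∀ m n, g (m + n) + 1 ≤ (g m + 1) * (g n + 1)) :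
    Subexp g ∨ ∃ a : ℝ, 1 < a ∧ ∀ n, a ^ n ≤ (g n : ℝ) + 1 := by
  by_cases hs : Subexp g
  · exact Or.inl hs
  right
  unfold Subexp at hs
  push Not at hs
  obtain ⟨a, ha, hfr⟩ := hs
  refine ⟨a, ha, ?_⟩
  set u : ℕ → ℝ := fun n => Real.log ((g n : ℝ) + 1) with hu
  have hsub : Subadditive u := by
    intro m n
    simp only [hu]
    rw [← Real.log_mul (by positivity) (by positivity)]
    refine Real.log_le_log (by positivity) ?_
    exact_mod_cast hg m n
  have hbdd : BddBelow (Set.range fun n => u n / n) := by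
    refine ⟨0, ?_⟩
    rintro _ ⟨n, rfl⟩
    have : 0 ≤ u n := Real.log_nonneg (by
      have : (0 : ℝ) ≤ g n := Nat.cast_nonneg _
      linarith)
    positivity
  have hlim := hsub.tendsto_lim hbdd
  have hle : Real.log a ≤ hsub.lim := by
    by_contra hcon
    push Not at hcon
    have h1 : ∀ᶠ n in atTop, u n / n < Real.log a := hlim.eventually_lt_const hcon
    have h2 := hfr.and_eventually (h1.and (eventually_ge_atTop 1))
    obtain ⟨n, hn1, hn2, hn3⟩ := h2.exists
    have hn0 : (0 : ℝ) < n := by exact_mod_cast hn3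
    rw [div_lt_iff₀ hn0] at hn2
    have h3 : Real.log (a ^ n) ≤ u n := by
      refine Real.log_le_log (by positivity) ?_
      linarith
    rw [Real.log_pow] at h3
    linarith
  intro n
  rcases Nat.eq_zero_or_pos n with h0 | h0
  · subst h0
    have : (0 : ℝ) ≤ g 0 := Nat.cast_nonneg _
    simp only [pow_zero]
    linarith
  · have h1 := hsub.lim_le_div hbdd h0.ne'
    have hn0 : (0 : ℝ) < n := by exact_mod_cast h0
    rw [le_div_iff₀ hn0] at h1
    have h2 : Real.log (a ^ n) ≤ u n := by
      rw [Real.log_pow]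
      nlinarith
    exact (Real.log_le_log_iff (by positivity) (by positivity)).mp h2

/-- A diagonal argument. -/
theorem diagonal (g : ℕ → ℕ → ℕ) (hmono : ∀ k, Monotone (g k)) (hsub : ∀ k, Subexp (g k)) :
    ∃ F : ℕ → ℕ, Monotone F ∧ Subexp F ∧ ∀ k, ∀ᶠ n in atTop, g k n ≤ F n := by
  classical
  have hN : ∀ k : ℕ, ∃ N : ℕ, ∀ n, N ≤ n → (g k n : ℝ) ≤ (1 + 1 / ((k : ℝ) + 1)) ^ n := by
    intro k
    have h1 : (1 : ℝ) < 1 + 1 / ((k : ℝ) + 1) := by
      have : (0 : ℝ) < 1 / ((k : ℝ) + 1) := by positivity
      linarith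
    exact eventually_atTop.mp (hsub k _ h1)
  choose N hN using hN
  set A : ℕ → Finset ℕ := fun n => (Finset.range (n + 1)).filter (fun k => N k ≤ n) with hA
  refine ⟨fun n => (A n).sup (fun k => g k n), ?_, ?_, ?_⟩
  · intro m n hmn
    refine Finset.sup_le fun k hk => ?_
    have hk' : k ∈ A n := by
      simp only [hA, Finset.mem_filter, Finset.mem_range] at hk ⊢
      omega
    exact (hmono k hmn).trans (Finset.le_sup (f := fun k => g k n) hk')
  · intro a ha
    obtain ⟨K, hK⟩ := exists_nat_one_div_lt (sub_pos.mpr ha)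
    have h1 : ∀ᶠ n in atTop, ∀ k ∈ Finset.range K, (g k n : ℝ) ≤ a ^ n := by
      rw [eventually_all_finset]
      intro k _
      exact hsub k a ha
    filter_upwards [h1] with n hn
    have h2 : ∀ k ∈ A n, (g k n : ℝ) ≤ a ^ n := by
      intro k hk
      by_cases hkK : k < K
      · exact hn k (Finset.mem_range.mpr hkK)
      · push Not at hkK
        simp only [hA, Finset.mem_filter, Finset.mem_range] at hk
        refine (hN k n hk.2).trans ?_
        refine pow_le_pow_left₀ (by positivity) ?_ n
        have h3 : 1 / ((k : ℝ) + 1) ≤ 1 / ((K : ℝ) + 1) := by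
          refine one_div_le_one_div_of_le (by positivity) ?_
          have : (K : ℝ) ≤ k := by exact_mod_cast hkK
          linarith
        linarith
    rcases Finset.eq_empty_or_nonempty (A n) with he | hne
    · simp only [he, Finset.sup_empty]
      have : (0 : ℝ) ≤ a ^ n := by positivity
      simpa using this
    · obtain ⟨k, hk, hk2⟩ := Finset.exists_mem_eq_sup (A n) hne (fun k => g k n)
      simp only [hk2]
      exact h2 k hk
  · intro k
    filter_upwards [eventually_ge_atTop (max k (N k))] with n hn
    have hk : k ∈ A n := by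
      simp only [hA, Finset.mem_filter, Finset.mem_range]
      omega
    exact Finset.le_sup (f := fun k => g k n) hk

/-! ### Countability -/

theorem freeSemigroup_countable (k : ℕ) : Countable (FreeSemigroup (Fin k)) := by
  have : Function.Injective (fun w : FreeSemigroup (Fin k) => (w.head, w.tail)) := by
    intro w w' h
    simp only [Prod.mk.injEq] at h
    exact FreeSemigroup.ext h.1 h.2
  exact this.countable

/-- The codes of finitely presented semigroups with a finite subset. -/
abbrev Code : Type := Σ (k : ℕ) (R : Finset (FreeSemigroup (Fin k) × FreeSemigroup (Fin k))),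
  Finset (Presented k R)

instance : Countable Code := by
  have : ∀ k, Countable (FreeSemigroup (Fin k)) := freeSemigroup_countable
  have : ∀ k R, Countable (Presented k R) := fun k R => by
    unfold Presented
    exact Quotient.countable
  infer_instance

instance : Nonempty Code := ⟨⟨0, ∅, ∅⟩⟩

/-- Growth functions are transported by isomorphisms. -/
theorem growth_map {S T : Type} [Semigroup S] [Semigroup T] (e : S ≃* T) (X : Finset S) (n : ℕ) :
    growth (X.map e.toEquiv.toEmbedding) n = growth X n := by
  have key : ball (X.map e.toEquiv.toEmbedding) n = e '' ball X n := by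
    ext t
    constructor
    · rintro ⟨w, hw, rfl⟩
      have hφ : ∀ x : (X.map e.toEquiv.toEmbedding : Finset T), e.symm (x : T) ∈ X := by
        intro x
        obtain ⟨y, hy, hyx⟩ := Finset.mem_map.mp x.2
        have : e y = (x : T) := hyx
        rw [← this, e.symm_apply_apply]
        exact hy
      refine ⟨FreeSemigroup.lift (fun x : X => (x : S))
        (FreeSemigroup.map (fun x : (X.map e.toEquiv.toEmbedding : Finset T) =>
          (⟨e.symm (x : T), hφ x⟩ : X)) w), ⟨_, ?_, rfl⟩, ?_⟩
      · rw [FreeSemigroup.length_map]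
        exact hw
      · induction w using FreeSemigroup.recOnMul with
        | ih1 x =>
          rw [FreeSemigroup.map_of, FreeSemigroup.lift_of, FreeSemigroup.lift_of]
          exact e.apply_symm_apply _
        | ih2 x y hx hy =>
          simp only [map_mul]
          rw [FreeSemigroup.length_mul] at hw
          have h1 : (FreeSemigroup.of x).length ≤ n := by omega
          have h2 : y.length ≤ n := by omega
          rw [hx h1, hy h2]
    · rintro ⟨_, ⟨w, hw, rfl⟩, rfl⟩
      have hφ : ∀ x : X, e (x : S) ∈ X.map e.toEquiv.toEmbedding := by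
        intro x
        exact Finset.mem_map.mpr ⟨x, x.2, rfl⟩
      refine ⟨FreeSemigroup.map (fun x : X => (⟨e (x : S), hφ x⟩ :
        (X.map e.toEquiv.toEmbedding : Finset T))) w, ?_, ?_⟩
      · rw [FreeSemigroup.length_map]
        exact hw
      · clear hw
        induction w using FreeSemigroup.recOnMul with
        | ih1 x =>
          rw [FreeSemigroup.map_of, FreeSemigroup.lift_of, FreeSemigroup.lift_of]
        | ih2 x y hx hy =>
          simp only [map_mul]
          rw [hx, hy]
  unfold growth
  rw [key]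
  exact Set.ncard_image_of_injective _ e.injective

/-! ### The result -/

theorem subexp_cube : Subexp (fun n => n ^ 3) := by
  intro a ha
  have h := (isLittleO_pow_const_const_pow_of_one_lt (R := ℝ) 3 ha).bound (show (0 : ℝ) < 1 by norm_num)
  filter_upwards [h] with n hn
  rw [Real.norm_eq_abs, Real.norm_eq_abs, abs_of_nonneg (by positivity),
    abs_of_nonneg (by positivity)] at hn
  push_cast
  linarith

theorem not_dom_of_subexp {f : ℕ → ℕ} (hf : Subexp f) : ¬ Dom (fun n => 2 ^ n) f := by
  rintro ⟨C, hC, h⟩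
  -- 2 ^ n ≤ C * f (C n) ≤ C * a ^ (C n) with a ^ C < 2
  obtain ⟨a, ha1, ha2⟩ : ∃ a : ℝ, 1 < a ∧ a ^ C ≤ 3 / 2 := by
    refine ⟨1 + 1 / (4 * C), ?_, ?_⟩
    · have : (0 : ℝ) < 1 / (4 * C) := by positivity
      linarith
    · have h1 : (1 + 1 / (4 * (C : ℝ))) ≤ Real.exp (1 / (4 * C)) := by
        have := Real.add_one_le_exp (1 / (4 * (C : ℝ)))
        linarith
      calc (1 + 1 / (4 * (C : ℝ))) ^ C ≤ (Real.exp (1 / (4 * C))) ^ C :=
            pow_le_pow_left₀ (by positivity) h1 C
        _ = Real.exp (1 / 4) := by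
            rw [← Real.exp_nat_mul]
            congr 1
            field_simp
        _ ≤ 3 / 2 := by
            have h2 : Real.exp (1 / 4) ^ 4 = Real.exp 1 := by
              rw [← Real.exp_nat_mul]; norm_num
            have h3 : Real.exp 1 < 3 := by
              have := Real.exp_one_lt_d9
              linarith
            by_contra hcon
            push Not at hcon
            have h4 : (3 / 2 : ℝ) ^ 4 < Real.exp (1 / 4) ^ 4 :=
              pow_lt_pow_left₀ hcon (by norm_num) (by norm_num)
            rw [h2] at h4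
            norm_num at h4
            linarith
  have hCn : Tendsto (fun n : ℕ => C * n) atTop atTop :=
    tendsto_id.const_mul_atTop' (by omega)
  have h1 : ∀ᶠ n in atTop, (f (C * n) : ℝ) ≤ a ^ (C * n) := hCn.eventually (hf a ha1)
  have h2 : ∀ᶠ n : ℕ in atTop, (C : ℝ) * (3 / 4 : ℝ) ^ n < 1 := by
    have : Tendsto (fun n : ℕ => (C : ℝ) * (3 / 4 : ℝ) ^ n) atTop (𝓝 ((C : ℝ) * 0)) :=
      (tendsto_pow_atTop_nhds_zero_of_lt_one (by norm_num) (by norm_num)).const_mul _
    rw [mul_zero] at this
    exact this.eventually_lt_const one_pos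
  obtain ⟨n, hn1, hn2⟩ := (h1.and h2).exists
  have h3 : (2 : ℝ) ^ n ≤ C * f (C * n) := by exact_mod_cast h n
  have h4 : (a ^ (C * n) : ℝ) ≤ (3 / 2) ^ n := by
    rw [pow_mul]
    exact pow_le_pow_left₀ (by positivity) ha2 n
  have h5 : (2 : ℝ) ^ n ≤ C * (3 / 2) ^ n :=
    h3.trans (mul_le_mul_of_nonneg_left (hn1.trans h4) (by positivity))
  have h6 : ((3 / 2 : ℝ)) ^ n = (3 / 4) ^ n * 2 ^ n := by
    rw [← mul_pow]; norm_num
  rw [h6] at h5
  have h7 : (0 : ℝ) < 2 ^ n := by positivity
  nlinarith

/-- **Negative answer to Q1.** There are increasing functions `f₁`, `f₂` with `n ^ 2 ⪯ f₁`,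
`f₂ ⪯ 2 ^ n`, `f₁ ≁ n ^ 2`, `f₂ ≁ 2 ^ n` such that every growth function of a finitely presented
semigroup is eventually at least `f₁` or eventually at most `f₂`. -/
theorem result : ∃ f₁ f₂ : ℕ → ℕ, StrictMono f₁ ∧ StrictMono f₂ ∧
    Dom (fun n => n ^ 2) f₁ ∧ Dom f₂ (fun n => 2 ^ n) ∧
    ¬ Equivalent f₁ (fun n => n ^ 2) ∧ ¬ Equivalent f₂ (fun n => 2 ^ n) ∧
    ∀ (S : Type) [Semigroup S] (X : Finset S), FinitelyPresented S → Generates X →
      (∀ᶠ n in atTop, f₁ n ≤ growth X n) ∨ (∀ᶠ n in atTop, growth X n ≤ f₂ n) := by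
  classical
  obtain ⟨c, hc⟩ := exists_surjective_nat Code
  set g : ℕ → ℕ → ℕ := fun k => if Subexp (growth (c k).2.2) then growth (c k).2.2 else 0 with hg
  obtain ⟨F, hF1, hF2, hF3⟩ := diagonal g
    (by
      intro k
      simp only [hg]
      split_ifs
      · exact growth_mono _
      · exact fun _ _ _ => le_rfl)
    (by
      intro k
      simp only [hg]
      split_ifs with h
      · exact h
      · intro a ha
        refine Eventually.of_forall fun n => ?_
        have : (0 : ℝ) ≤ a ^ n := by positivity
        simpa using this)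
  have hcube : StrictMono (fun n : ℕ => n ^ 3) := fun m n h => Nat.pow_lt_pow_left h (by norm_num)
  have hsub2 : Subexp (fun n => F n + n ^ 3) := by
    intro a ha
    obtain ⟨b, hb1, hb2⟩ : ∃ b : ℝ, 1 < b ∧ b < a := exists_between ha
    have h1 := hF2 b hb1
    have h2 := subexp_cube b hb1
    have h3 : ∀ᶠ n : ℕ in atTop, 2 * (b / a) ^ n < 1 := by
      have : Tendsto (fun n : ℕ => 2 * (b / a) ^ n) atTop (𝓝 (2 * 0)) := by
        refine (tendsto_pow_atTop_nhds_zero_of_lt_one (by positivity) ?_).const_mul _
        rw [div_lt_one (by linarith)]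
        exact hb2
      rw [mul_zero] at this
      exact this.eventually_lt_const one_pos
    filter_upwards [h1, h2, h3] with n hn1 hn2 hn3
    have ha0 : (0 : ℝ) < a ^ n := by positivity
    have h4 : b ^ n = (b / a) ^ n * a ^ n := by
      rw [← mul_pow]
      congr 1
      field_simp
    push_cast
    push_cast at hn2
    have h5 : (b : ℝ) ^ n + b ^ n ≤ a ^ n := by
      rw [h4]
      nlinarith
    linarith
  refine ⟨fun n => n ^ 3, fun n => F n + n ^ 3, hcube, ?_, ?_, ?_, ?_, ?_, ?_⟩
  · intro m n h
    exact add_lt_add_of_le_of_lt (hF1 h.le) (hcube h)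
  · refine ⟨1, le_rfl, fun n => ?_⟩
    show n ^ 2 ≤ 1 * (1 * n) ^ 3
    rw [one_mul, one_mul]
    rcases Nat.eq_zero_or_pos n with h | h
    · subst h; simp
    · exact Nat.pow_le_pow_right h (by norm_num)
  · -- f₂ ≤ 2 ^ n eventually
    obtain ⟨N, hN⟩ := eventually_atTop.mp (hsub2 2 (by norm_num))
    set M := F N + N ^ 3 + 1 with hM
    refine ⟨M, by omega, fun n => ?_⟩
    show F n + n ^ 3 ≤ M * 2 ^ (M * n)
    have hM1 : 1 ≤ M := by omega
    have hMn : 2 ^ n ≤ 2 ^ (M * n) :=
      Nat.pow_le_pow_right (by norm_num) (Nat.le_mul_of_pos_left n hM1)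
    have hpos : 1 ≤ 2 ^ (M * n) := Nat.one_le_two_pow
    rcases le_total N n with h | h
    · have h1 : F n + n ^ 3 ≤ 2 ^ n := by exact_mod_cast hN n h
      exact (h1.trans hMn).trans (Nat.le_mul_of_pos_left _ hM1)
    · have h1 : F n + n ^ 3 ≤ F N + N ^ 3 := add_le_add (hF1 h) (hcube.monotone h)
      nlinarith
  · rintro ⟨⟨C, hC, h⟩, -⟩
    have h1 := h (C ^ 3 + 1)
    simp only at h1
    have h2 : C * (C * (C ^ 3 + 1)) ^ 2 = C ^ 3 * (C ^ 3 + 1) ^ 2 := by ring
    rw [h2] at h1
    have h3 : (C ^ 3 + 1) ^ 3 = (C ^ 3 + 1) * (C ^ 3 + 1) ^ 2 := by ring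
    rw [h3] at h1
    have h4 : 0 < (C ^ 3 + 1) ^ 2 := by positivity
    have h5 := Nat.le_of_mul_le_mul_right h1 h4
    omega
  · rintro ⟨-, h⟩
    exact not_dom_of_subexp hsub2 h
  · intro S _ X hS _
    obtain ⟨k, R, ⟨e⟩⟩ := hS
    rcases dichotomy (growth X) (growth_add X) with hsub | ⟨a, ha, hexp⟩
    · right
      obtain ⟨i, hi⟩ := hc ⟨k, R, X.map e.symm.toEquiv.toEmbedding⟩
      have h1 : growth (c i).2.2 = growth X := by
        rw [hi]
        funext n
        exact growth_map e.symm X n
      have h2 : g i = growth X := by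
        simp only [hg]
        rw [h1, if_pos hsub]
      filter_upwards [hF3 i] with n hn
      rw [h2] at hn
      omega
    · left
      obtain ⟨b, hb1, hb2⟩ : ∃ b : ℝ, 1 < b ∧ b < a := exists_between ha
      have h1 := subexp_cube b hb1
      have h3 : ∀ᶠ n : ℕ in atTop, 2 * (b / a) ^ n < 1 := by
        have : Tendsto (fun n : ℕ => 2 * (b / a) ^ n) atTop (𝓝 (2 * 0)) := by
          refine (tendsto_pow_atTop_nhds_zero_of_lt_one (by positivity) ?_).const_mul _
          rw [div_lt_one (by linarith)]
          exact hb2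
        rw [mul_zero] at this
        exact this.eventually_lt_const one_pos
      filter_upwards [h1, h3] with n hn1 hn3
      have ha0 : (0 : ℝ) < a ^ n := by positivity
      have h4 : b ^ n = (b / a) ^ n * a ^ n := by
        rw [← mul_pow]
        congr 1
        field_simp
      have hb3 : (1 : ℝ) ≤ b ^ n := one_le_pow₀ hb1.le
      have h5 : (b : ℝ) ^ n + 1 ≤ a ^ n := by
        have : (b : ℝ) ^ n + b ^ n ≤ a ^ n := by
          rw [h4]
          nlinarith
        linarith
      have h6 := hexp n
      have h7 : ((n ^ 3 : ℕ) : ℝ) ≤ growth X n := by linarith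
      exact_mod_cast h7

end Pool.Agent.Results.MP_dd6e79_al.NoOscillation
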